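import Mathlib

/-!
# Stabbing queries on R-trees: a lower bound matching the priority R-tree

For every `d ≥ 2` there are sets of `N` boxes in `ℝ^d` on which every R-tree has a stabbing query
with empty output that visits `Ω((N/B)^(1-1/d))` nodes.
-/

open Finset

namespace Pool.Agent.Results.MP_a7848c_lc.RTreeStabbing

/-- An axis-parallel box `∏ [lo i, hi i]` in `ℝ^d`. -/
structure Box (d : ℕ) where
  lo : Fin d → ℝ
  hi : Fin d → ℝ
  le : ∀ i, lo i ≤ hi i

/-- The point `q` lies in the box `b`. -/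
def Box.Has {d : ℕ} (b : Box d) (q : Fin d → ℝ) : Prop := ∀ i, b.lo i ≤ q i ∧ q i ≤ b.hi i

/-- An R-tree on the `N` boxes `S`, with block bounds `lo` and `hi`: every leaf other than the root
stores at least `lo` boxes, every inner node other than the root has at least `lo` children, and no
leaf stores more than `hi` boxes, no inner node has more than `hi` children.
The leaves are the nodes of depth `height`. -/
structure RTree {d N : ℕ} (S : Fin N → Box d) (lo hi : ℝ) where
  /-- the nodes -/
  V : Type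
  [fin : Finite V]
  /-- the root -/
  root : V
  /-- the parent of a node (the root is its own parent, by convention) -/
  parent : V → V
  /-- the depth of a node -/
  depth : V → ℕ
  /-- the common depth of the leaves -/
  height : ℕ
  parent_root : parent root = root
  depth_root : depth root = 0
  depth_parent : ∀ v, v ≠ root → depth v = depth (parent v) + 1
  depth_le : ∀ v, depth v ≤ height
  inner : ∀ v, depth v < height → ∃ w, w ≠ root ∧ parent w = v
  /-- the leaf storing a box -/
  store : Fin N → V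
  depth_store : ∀ x, depth (store x) = height
  leaf_le : ∀ v, depth v = height → ({x | store x = v}.ncard : ℝ) ≤ hi
  leaf_ge : ∀ v, v ≠ root → depth v = height → lo ≤ ({x | store x = v}.ncard : ℝ)
  child_le : ∀ v, depth v < height → ({w | w ≠ root ∧ parent w = v}.ncard : ℝ) ≤ hi
  child_ge : ∀ v, v ≠ root → depth v < height → lo ≤ ({w | w ≠ root ∧ parent w = v}.ncard : ℝ)

variable {d N : ℕ} {S : Fin N → Box d} {lo hi : ℝ}

/-- The box `x` is stored in the subtree of the node `v`. -/
def RTree.Below (T : RTree S lo hi) (v : T.V) (x : Fin N) : Prop :=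
  ∃ k : ℕ, T.parent^[k] (T.store x) = v

/-- The point `q` lies in `R(v)`, the minimal axis-parallel bounding box of the boxes stored in the
subtree of `v` (the intersection of all boxes that contain all of them). -/
def RTree.InBound (T : RTree S lo hi) (v : T.V) (q : Fin d → ℝ) : Prop :=
  ∀ b : Box d, (∀ x, T.Below v x → ∀ p, (S x).Has p → b.Has p) → b.Has q

/-- The nodes visited by the stabbing query with the point `q`: the root, and each child `v` of a
visited node with `q ∈ R(v)`. -/
inductive RTree.Visited (T : RTree S lo hi) (q : Fin d → ℝ) : T.V → Prop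
  | root : RTree.Visited T q T.root
  | child (v : T.V) (h : v ≠ T.root) (hp : RTree.Visited T q (T.parent v))
      (hb : T.InBound v q) : RTree.Visited T q v

/-- The cost of a stabbing query: the number of visited nodes. -/
noncomputable def RTree.cost (T : RTree S lo hi) (q : Fin d → ℝ) : ℕ := {v | T.Visited q v}.ncard

/-! ## Visited nodes -/

lemma inBound_parent (T : RTree S lo hi) {v : T.V} {q : Fin d → ℝ} (h : T.InBound v q) :
    T.InBound (T.parent v) q := by
  intro b hb
  apply h b
  rintro x ⟨k, hk⟩ p hp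
  apply hb x _ p hp
  refine ⟨k + 1, ?_⟩
  rw [Function.iterate_succ_apply', hk]

lemma visited_of_inBound (T : RTree S lo hi) {q : Fin d → ℝ} :
    ∀ (n : ℕ) (v : T.V), T.depth v = n → T.InBound v q → T.Visited q v := by
  intro n
  induction n with
  | zero =>
    intro v hv hb
    by_cases h : v = T.root
    · rw [h]
      exact RTree.Visited.root
    · have := T.depth_parent v h
      omega
  | succ n ih =>
    intro v hv hb
    by_cases h : v = T.root
    · rw [h]
      exact RTree.Visited.root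
    · have h1 := T.depth_parent v h
      exact RTree.Visited.child v h (ih _ (by omega) (inBound_parent T hb)) hb

lemma cost_pos (T : RTree S lo hi) (q : Fin d → ℝ) : 1 ≤ T.cost q := by
  have := T.fin
  unfold RTree.cost
  rw [Nat.one_le_iff_ne_zero, Ne, Set.ncard_eq_zero (Set.toFinite _)]
  intro h
  have h1 : T.root ∈ {v | T.Visited q v} := RTree.Visited.root
  rw [h] at h1
  exact h1

/-! ## The hard set of boxes -/

/-- the box of a grid point -/
def mkBox (σ : Equiv.Perm (Fin d)) {M : ℕ} (p : Fin d → Fin M) : Box d where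
  lo j := -((M : ℝ) - (p (σ.symm j) : ℕ))
  hi j := ((p j : ℕ) : ℝ)
  le j := by
    have h1 : ((p (σ.symm j) : ℕ) : ℝ) ≤ M := by exact_mod_cast (p (σ.symm j)).2.le
    have h2 : (0 : ℝ) ≤ ((p j : ℕ) : ℝ) := Nat.cast_nonneg _
    linarith

/-- the query of the hyperplane `s_i = a + 1/2` -/
def mkQuery (σ : Equiv.Perm (Fin d)) (M : ℕ) (i : Fin d) (a : ℕ) : Fin d → ℝ := fun j =>
  if j = i then (a : ℝ) + 1 else if j = σ i then -((M : ℝ) - a) else 0

lemma not_has (σ : Equiv.Perm (Fin d)) (hσ : ∀ i, σ i ≠ i) {M : ℕ} (p : Fin d → Fin M) (i : Fin d)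
    (a : ℕ) : ¬ (mkBox σ p).Has (mkQuery σ M i a) := by
  intro h
  have h1 := (h i).2
  have h2 := (h (σ i)).1
  simp only [mkBox, mkQuery, if_true, Equiv.symm_apply_apply, if_neg (hσ i)] at h1 h2
  have h3 : (a : ℝ) + 1 ≤ a := by linarith
  linarith

lemma has_of_cross (σ : Equiv.Perm (Fin d)) {M : ℕ}
    (p p' : Fin d → Fin M) (i : Fin d) (a : ℕ) (ha : a < M) (h1 : (p i : ℕ) ≤ a)
    (h2 : a + 1 ≤ (p' i : ℕ))
    (b : Box d) (hb : ∀ q, (mkBox σ p).Has q → b.Has q) (hb' : ∀ q, (mkBox σ p').Has q → b.Has q) :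
    b.Has (mkQuery σ M i a) := by
  have hmem : ∀ r : Fin d → Fin M, (mkBox σ r).Has 0 ∧ (mkBox σ r).Has (mkBox σ r).lo ∧
      (mkBox σ r).Has (mkBox σ r).hi := by
    intro r
    refine ⟨fun j => ⟨?_, ?_⟩, fun j => ⟨le_rfl, (mkBox σ r).le j⟩,
      fun j => ⟨(mkBox σ r).le j, le_rfl⟩⟩
    · have h3 : ((r (σ.symm j) : ℕ) : ℝ) ≤ M := by exact_mod_cast (r (σ.symm j)).2.le
      simp only [mkBox, Pi.zero_apply]
      linarith
    · simp only [mkBox, Pi.zero_apply]
      exact Nat.cast_nonneg _
  have h0 := hb _ (hmem p).1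
  have hlo := hb _ (hmem p).2.1
  have hhi := hb' _ (hmem p').2.2
  intro j
  unfold mkQuery
  have hj0 := h0 j
  simp only [Pi.zero_apply] at hj0
  split_ifs with hji hjs
  · subst hji
    have h3 := (hhi j).2
    simp only [mkBox] at h3
    have h4 : (a : ℝ) + 1 ≤ ((p' j : ℕ) : ℝ) := by exact_mod_cast h2
    have h5 : (0 : ℝ) ≤ a := Nat.cast_nonneg _
    exact ⟨by linarith, by linarith⟩
  · subst hjs
    have h3 := (hlo (σ i)).1
    simp only [mkBox, Equiv.symm_apply_apply] at h3
    have h4 : ((p i : ℕ) : ℝ) ≤ a := by exact_mod_cast h1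
    have h5 : (a : ℝ) ≤ M := by exact_mod_cast ha.le
    exact ⟨by linarith, by linarith⟩
  · exact hj0

/-! ## Crossing hyperplanes -/

/-- a set of `n` grid points is crossed by at least `n^(1/d) - 1` hyperplanes -/
lemma cross_count {ι : Type*} [DecidableEq ι] {M : ℕ} (p : ι → Fin d → Fin M)
    (hp : Function.Injective p) (hd : 0 < d) (X : Finset ι) (hX : X.Nonempty)
    (R : Fin d × ℕ → Prop) [DecidablePred R] (hR : ∀ w, R w ↔
      (∃ x ∈ X, (p x w.1 : ℕ) ≤ w.2) ∧ ∃ y ∈ X, w.2 + 1 ≤ (p y w.1 : ℕ)) :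
    ((X.card : ℝ) ^ (1 / (d : ℝ)) - 1) ≤
      (((univ : Finset (Fin d)) ×ˢ range (M - 1)).filter R).card := by
  classical
  -- the number of distinct values of coordinate `i`
  let D : Fin d → Finset (Fin M) := fun i => X.image (fun x => p x i)
  have hprod : X.card ≤ ∏ i, (D i).card := by
    rw [← Fintype.card_piFinset]
    rw [← card_image_of_injective X hp]
    apply card_le_card
    intro f hf
    obtain ⟨x, hx, rfl⟩ := mem_image.1 hf
    rw [Fintype.mem_piFinset]
    intro i
    exact mem_image_of_mem (fun x => p x i) hx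
  obtain ⟨i, hi⟩ : ∃ i, (X.card : ℝ) ^ (1 / (d : ℝ)) ≤ (D i).card := by
    by_contra hcon
    push Not at hcon
    have h1 : ∏ i, ((D i).card : ℝ) < ∏ _i : Fin d, (X.card : ℝ) ^ (1 / (d : ℝ)) := by
      apply prod_lt_prod_of_nonempty
      · intro i _
        have : (D i).Nonempty := hX.image _
        exact_mod_cast card_pos.2 this
      · intro i _
        exact hcon i
      · exact ⟨⟨0, hd⟩, mem_univ _⟩
    rw [prod_const, card_univ, Fintype.card_fin, ← Real.rpow_natCast, ← Real.rpow_mul
      (Nat.cast_nonneg _), one_div, inv_mul_cancel₀ (by positivity), Real.rpow_one] at h1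
    have h2 : (X.card : ℝ) ≤ ∏ i, ((D i).card : ℝ) := by exact_mod_cast hprod
    linarith
  have hDne : (D i).Nonempty := hX.image _
  set m := (D i).max' hDne with hm
  have hcard : (D i).card - 1 ≤
      (((univ : Finset (Fin d)) ×ˢ range (M - 1)).filter R).card := by
    have hmD : m ∈ D i := max'_mem _ _
    rw [← card_erase_of_mem hmD]
    apply card_le_card_of_injOn (fun v : Fin M => ((i, (v : ℕ)) : Fin d × ℕ))
    · intro v hv
      rw [mem_coe, mem_erase] at hv
      have hlt : v < m := lt_of_le_of_ne (le_max' _ _ hv.2) hv.1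
      rw [mem_coe, mem_filter, mem_product, mem_range, hR]
      have hlt' : (v : ℕ) < m := hlt
      have hmM := m.2
      refine ⟨⟨mem_univ _, by simp only; omega⟩, ?_, ?_⟩
      · obtain ⟨x, hx, hx2⟩ := mem_image.1 hv.2
        refine ⟨x, hx, ?_⟩
        simp only
        rw [hx2]
      · obtain ⟨y, hy, hy2⟩ := mem_image.1 hmD
        refine ⟨y, hy, ?_⟩
        simp only
        rw [hy2]
        omega
    · intro v _ w _ h
      simp only [Prod.mk.injEq, true_and] at h
      exact Fin.ext h
  have h3 : 1 ≤ (D i).card := card_pos.2 hDne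
  have h4 : (D i).card ≤ (((univ : Finset (Fin d)) ×ˢ range (M - 1)).filter R).card + 1 := by
    omega
  have h5 : ((D i).card : ℝ) ≤
      ((((univ : Finset (Fin d)) ×ˢ range (M - 1)).filter R).card + 1 : ℕ) := by
    exact_mod_cast h4
  push_cast at h5
  linarith

lemma exists_perm (hd : 2 ≤ d) : ∃ σ : Equiv.Perm (Fin d), ∀ i, σ i ≠ i := by
  obtain ⟨m, rfl⟩ : ∃ m, d = m + 2 := ⟨d - 2, by omega⟩
  refine ⟨finRotate (m + 2), fun i => ?_⟩
  rw [finRotate_apply]
  intro h
  have h1 : (1 : Fin (m + 2)) = 0 := by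
    have : i + 1 = i + 0 := by rw [h, add_zero]
    exact add_left_cancel this
  exact absurd h1 (by simp)

lemma kappa (hd : 0 < d) {n : ℝ} (hn : 2 ≤ n) :
    (1 - (1 / 2 : ℝ) ^ (1 / (d : ℝ))) * n ^ (1 / (d : ℝ)) ≤ n ^ (1 / (d : ℝ)) - 1 := by
  have h1 : (1 / 2 : ℝ) ^ (1 / (d : ℝ)) * n ^ (1 / (d : ℝ)) = (n / 2) ^ (1 / (d : ℝ)) := by
    rw [← Real.mul_rpow (by norm_num) (by linarith)]
    congr 1
    ring
  have h2 : 1 ≤ (n / 2) ^ (1 / (d : ℝ)) :=
    Real.one_le_rpow (by linarith) (by positivity)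
  rw [sub_mul, one_mul, h1]
  linarith

lemma kappa_pos (hd : 0 < d) : 0 < 1 - (1 / 2 : ℝ) ^ (1 / (d : ℝ)) := by
  have : (1 / 2 : ℝ) ^ (1 / (d : ℝ)) < 1 :=
    Real.rpow_lt_one (by norm_num) (by norm_num) (by positivity)
  linarith

/-- For every `d ≥ 2` there is a set `S` of `N` boxes such that on every R-tree on `S` some stabbing
query with empty output visits at least `c (N/B)^(1-1/d)` nodes. -/
theorem result (d : ℕ) (hd : 2 ≤ d) (c₁ C₂ : ℝ) (hc₁ : 0 < c₁) (hC₂ : 0 < C₂) :
    ∃ c : ℝ, 0 < c ∧ ∀ B : ℕ, 1 < c₁ * B → ∀ N : ℕ, ∃ S : Fin N → Box d, Function.Injective S ∧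
      ∀ T : RTree S (c₁ * B) (C₂ * B), ∃ q : Fin d → ℝ, (∀ x, ¬ (S x).Has q) ∧
        c * ((N : ℝ) / B) ^ (1 - 1 / (d : ℝ)) ≤ T.cost q := by
  classical
  have hd0 : 0 < d := by omega
  have hdR : (0 : ℝ) < d := by exact_mod_cast hd0
  set κ : ℝ := 1 - (1 / 2 : ℝ) ^ (1 / (d : ℝ)) with hκ
  have hκpos : 0 < κ := kappa_pos hd0
  set c : ℝ := min (1 / (C₂ + 1)) (κ * c₁ ^ (1 / (d : ℝ)) / (2 * C₂ * d)) with hc
  have hcpos : 0 < c := by
    apply lt_min
    · positivity
    · positivity
  refine ⟨c, hcpos, fun B hB N => ?_⟩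
  have hBpos : (0 : ℝ) < B := by
    rcases (Nat.cast_nonneg B : (0 : ℝ) ≤ B).lt_or_eq with h | h
    · exact h
    · rw [← h] at hB
      simp at hB
      linarith
  set α : ℝ := 1 - 1 / (d : ℝ) with hα
  have hα0 : 0 < α := by
    have : 1 / (d : ℝ) < 1 := by
      rw [div_lt_one hdR]
      have : (2 : ℝ) ≤ d := by exact_mod_cast hd
      linarith
    linarith
  have hα1 : α ≤ 1 := by
    have : 0 ≤ 1 / (d : ℝ) := by positivity
    linarith
  set M : ℕ := ⌈(N : ℝ) ^ (1 / (d : ℝ))⌉₊ with hM
  have hMN : N ≤ M ^ d := by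
    have h1 : (N : ℝ) ^ (1 / (d : ℝ)) ≤ M := Nat.le_ceil _
    have h2 : ((N : ℝ) ^ (1 / (d : ℝ))) ^ d ≤ (M : ℝ) ^ d :=
      pow_le_pow_left₀ (by positivity) h1 d
    rw [← Real.rpow_natCast, ← Real.rpow_mul (Nat.cast_nonneg _), one_div,
      inv_mul_cancel₀ hdR.ne', Real.rpow_one] at h2
    exact_mod_cast h2
  obtain ⟨σ, hσ⟩ := exists_perm hd
  obtain ⟨p⟩ : Nonempty (Fin N ↪ (Fin d → Fin M)) := by
    apply Function.Embedding.nonempty_of_card_le
    simpa using hMN
  refine ⟨fun x => mkBox σ (p x), ?_, ?_⟩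
  · intro x y hxy
    apply p.injective
    funext j
    have h1 : (mkBox σ (p x)).hi j = (mkBox σ (p y)).hi j := by
      simp only at hxy
      rw [hxy]
    simp only [mkBox] at h1
    exact Fin.ext (by exact_mod_cast h1)
  intro T
  have := T.fin
  have : Fintype T.V := Fintype.ofFinite _
  by_cases hh : T.height = 0
  · -- all boxes are stored in the root
    refine ⟨fun _ => (M : ℝ) + 1, ?_, ?_⟩
    · intro x hx
      have h1 := (hx ⟨0, hd0⟩).2
      simp only [mkBox] at h1
      have h2 : (((p x ⟨0, hd0⟩ : Fin M) : ℕ) : ℝ) ≤ M := by exact_mod_cast (p x ⟨0, hd0⟩).2.le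
      linarith
    · have hroot : ∀ x, T.store x = T.root := by
        intro x
        by_contra h
        have h1 := T.depth_parent _ h
        have h2 := T.depth_store x
        omega
      have h1 := T.leaf_le T.root (by rw [T.depth_root, hh])
      have h2 : {x | T.store x = T.root} = Set.univ := by
        ext x
        simp [hroot x]
      rw [h2, Set.ncard_univ, Nat.card_eq_fintype_card, Fintype.card_fin] at h1
      have h3 : (N : ℝ) / B ≤ C₂ := by
        rw [div_le_iff₀ hBpos]
        exact h1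
      have h4 : ((N : ℝ) / B) ^ α ≤ C₂ + 1 := by
        calc ((N : ℝ) / B) ^ α ≤ (C₂ + 1) ^ α :=
              Real.rpow_le_rpow (by positivity) (by linarith) hα0.le
          _ ≤ (C₂ + 1) ^ (1 : ℝ) := Real.rpow_le_rpow_of_exponent_le (by linarith) hα1
          _ = C₂ + 1 := Real.rpow_one _
      have h5 : c ≤ 1 / (C₂ + 1) := min_le_left _ _
      have h6 : (1 : ℝ) ≤ T.cost (fun _ => (M : ℝ) + 1) := by exact_mod_cast cost_pos T _
      calc c * ((N : ℝ) / B) ^ α ≤ 1 / (C₂ + 1) * (C₂ + 1) := by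
            apply mul_le_mul h5 h4 (by positivity) (by positivity)
        _ = 1 := by field_simp
        _ ≤ _ := h6
  · by_contra hcon
    push Not at hcon
    set t : ℝ := c * ((N : ℝ) / B) ^ α with ht
    -- leaves
    set Lv : Finset T.V := univ.filter (fun v => T.depth v = T.height) with hLv
    let X : T.V → Finset (Fin N) := fun v => univ.filter (fun x => T.store x = v)
    have hXn : ∀ v, {x | T.store x = v}.ncard = (X v).card := by
      intro v
      rw [← Set.ncard_coe_finset]
      congr 1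
      ext x
      simp [X]
    have hleafne : ∀ v ∈ Lv, v ≠ T.root := by
      intro v hv h
      have h1 := (mem_filter.1 hv).2
      rw [h, T.depth_root] at h1
      exact hh h1.symm
    have hXge : ∀ v ∈ Lv, c₁ * B ≤ (X v).card := by
      intro v hv
      rw [← hXn]
      exact T.leaf_ge v (hleafne v hv) (mem_filter.1 hv).2
    have hXle : ∀ v ∈ Lv, ((X v).card : ℝ) ≤ C₂ * B := by
      intro v hv
      rw [← hXn]
      exact T.leaf_le v (mem_filter.1 hv).2
    have hX2 : ∀ v ∈ Lv, 2 ≤ (X v).card := by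
      intro v hv
      have h1 := hXge v hv
      have h2 : (1 : ℝ) < (X v).card := by linarith
      exact_mod_cast h2
    have hN : (N : ℝ) ≤ Lv.card * (C₂ * B) := by
      have h1 : N = ∑ v ∈ Lv, (X v).card := by
        have h2 := card_eq_sum_card_fiberwise (s := (univ : Finset (Fin N))) (t := Lv)
          (f := T.store) (fun x _ => by
            rw [mem_coe, mem_filter]
            exact ⟨mem_univ _, T.depth_store x⟩)
        rw [card_univ, Fintype.card_fin] at h2
        exact h2
      calc (N : ℝ) = ((∑ v ∈ Lv, (X v).card : ℕ) : ℝ) := congrArg _ h1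
        _ = ∑ v ∈ Lv, ((X v).card : ℝ) := by push_cast; rfl
        _ ≤ ∑ v ∈ Lv, C₂ * B := sum_le_sum hXle
        _ = _ := by rw [sum_const, nsmul_eq_mul]
    let W : Finset (Fin d × ℕ) := (univ : Finset (Fin d)) ×ˢ range (M - 1)
    let R : T.V → Fin d × ℕ → Prop := fun v w =>
      (∃ x ∈ X v, (p x w.1 : ℕ) ≤ w.2) ∧ ∃ y ∈ X v, w.2 + 1 ≤ (p y w.1 : ℕ)
    have hlow : Lv.card * (κ * (c₁ * B) ^ (1 / (d : ℝ))) ≤
        ∑ v ∈ Lv, ((W.filter (R v)).card : ℝ) := by
      rw [← nsmul_eq_mul, ← sum_const]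
      apply sum_le_sum
      intro v hv
      have h1 := cross_count (fun x => p x) p.injective hd0 (X v)
        (card_pos.1 (by have := hX2 v hv; omega)) (R v) (fun w => Iff.rfl)
      refine le_trans ?_ h1
      refine le_trans ?_ (kappa hd0 (by exact_mod_cast hX2 v hv))
      apply mul_le_mul_of_nonneg_left _ hκpos.le
      exact Real.rpow_le_rpow (by positivity) (hXge v hv) (by positivity)
    have hswap : ∑ v ∈ Lv, ((W.filter (R v)).card : ℝ) =
        ∑ w ∈ W, ((Lv.filter (fun v => R v w)).card : ℝ) := by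
      have h1 := sum_card_bipartiteAbove_eq_sum_card_bipartiteBelow (s := Lv) (t := W) R
      unfold bipartiteAbove bipartiteBelow at h1
      exact_mod_cast h1
    have hup : ∀ w ∈ W, ((Lv.filter (fun v => R v w)).card : ℝ) ≤ t := by
      rintro ⟨i, a⟩ hw
      rw [mem_product, mem_range] at hw
      have h1 := hcon (mkQuery σ M i a) (fun x => not_has σ hσ (p x) i a)
      refine le_trans ?_ h1.le
      have h2 : (Lv.filter (fun v => R v (i, a))).card ≤ T.cost (mkQuery σ M i a) := by
        unfold RTree.cost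
        rw [← Set.ncard_coe_finset]
        apply Set.ncard_le_ncard _ (Set.toFinite _)
        intro v hv
        rw [mem_coe, mem_filter] at hv
        obtain ⟨-, ⟨x, hx, hxa⟩, ⟨y, hy, hya⟩⟩ := hv
        apply visited_of_inBound T _ v rfl
        intro b hb
        have hM1 : a < M - 1 := hw.2
        exact has_of_cross σ (p x) (p y) i a (by omega) hxa hya b
          (fun q hq => hb x ⟨0, (mem_filter.1 hx).2⟩ q hq)
          (fun q hq => hb y ⟨0, (mem_filter.1 hy).2⟩ q hq)
      exact_mod_cast h2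
    have hWcard : (W.card : ℝ) ≤ d * (N : ℝ) ^ (1 / (d : ℝ)) := by
      have h1 : W.card = d * (M - 1) := by
        simp [W]
      rw [h1]
      push_cast
      apply mul_le_mul_of_nonneg_left _ hdR.le
      rcases Nat.eq_zero_or_pos M with h2 | h2
      · rw [h2]
        simp
        positivity
      · rw [Nat.cast_sub h2]
        have h3 : (M : ℝ) < (N : ℝ) ^ (1 / (d : ℝ)) + 1 := Nat.ceil_lt_add_one (by positivity)
        push_cast
        linarith
    have htpos : 0 ≤ t := by positivity
    have hmain : Lv.card * (κ * (c₁ * B) ^ (1 / (d : ℝ))) ≤ d * (N : ℝ) ^ (1 / (d : ℝ)) * t := by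
      calc _ ≤ ∑ w ∈ W, ((Lv.filter (fun v => R v w)).card : ℝ) := hswap ▸ hlow
        _ ≤ ∑ w ∈ W, t := sum_le_sum hup
        _ = W.card * t := by rw [sum_const, nsmul_eq_mul]
        _ ≤ _ := mul_le_mul_of_nonneg_right hWcard htpos
    have hNpos : 0 < N := by
      rcases Nat.eq_zero_or_pos N with h0 | h0
      · exfalso
        obtain ⟨q, hq⟩ : ∃ q : Fin d → ℝ, ∀ x, ¬ (mkBox σ (p x)).Has q :=
          ⟨0, fun x => absurd x.2 (by omega)⟩
        have h1 := hcon q hq
        have h2 : (1 : ℝ) ≤ T.cost q := by exact_mod_cast cost_pos T q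
        have h3 : t = 0 := by
          rw [ht, h0]
          simp [Real.zero_rpow hα0.ne']
        linarith
      · exact h0
    have hNR : (0 : ℝ) < N := by exact_mod_cast hNpos
    set b : ℝ := (B : ℝ) ^ (1 / (d : ℝ)) with hb
    set m : ℝ := (N : ℝ) ^ (1 / (d : ℝ)) with hm
    set e : ℝ := c₁ ^ (1 / (d : ℝ)) with he
    have hbpos : 0 < b := Real.rpow_pos_of_pos hBpos _
    have hmpos : 0 < m := Real.rpow_pos_of_pos hNR _
    have hepos : 0 < e := Real.rpow_pos_of_pos hc₁ _
    have h1 : (c₁ * B) ^ (1 / (d : ℝ)) = e * b := Real.mul_rpow hc₁.le hBpos.le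
    have h2 : ((N : ℝ) / B) ^ α = (N / B) * (b / m) := by
      rw [hα, Real.rpow_sub (by positivity), Real.rpow_one, Real.div_rpow hNR.le hBpos.le,
        ← hb, ← hm]
      field_simp
    rw [h1, ht, h2] at hmain
    have h3 : d * m * (c * (N / B * (b / m))) = d * c * (N / B) * b := by
      field_simp
    rw [h3] at hmain
    have h4 : (N : ℝ) / (C₂ * B) ≤ Lv.card := by
      rw [div_le_iff₀ (by positivity)]
      exact hN
    have h5 : (N : ℝ) / (C₂ * B) * (κ * (e * b)) ≤ d * c * (N / B) * b :=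
      le_trans (mul_le_mul_of_nonneg_right h4 (by positivity)) hmain
    have h6 : c ≤ κ * e / (2 * C₂ * d) := min_le_right _ _
    have h7 : d * c * (N / B) * b ≤ d * (κ * e / (2 * C₂ * d)) * (N / B) * b := by
      gcongr
    have h8 : d * (κ * e / (2 * C₂ * d)) * (N / B) * b =
        (N : ℝ) / (C₂ * B) * (κ * (e * b)) / 2 := by
      field_simp
    have h9 : 0 < (N : ℝ) / (C₂ * B) * (κ * (e * b)) := by positivity
    linarith

end Pool.Agent.Results.MP_a7848c_lc.RTreeStabbing
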